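import Pool.Agent.Helper61.FN.Tools
import Pool.Agent.Helper61.FN.GoalsC

/-!
# Project FN (MP_06d934_gt): packet FN-C0A
-/

set_option autoImplicit false

namespace Pool.Agent.Helper46.FN

open Finset Pool.Agent.Helper61.FN

theorem cC_ne {F : Type} [Field F] [LinearOrder F] [IsStrictOrderedRing F] {p q mu ep : F}
    (h : ParC p q mu ep) (j : Fin 20) : cC p q mu ep j ≠ 0 := by
  have hp : 0 < p := lt_of_lt_of_le one_pos h.p1
  have hq : 0 < q := lt_of_lt_of_le one_pos h.q1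
  have hm := h.mu0
  have h1 := h.ph0
  have h2 := h.ch0
  have h3 : 0 < 2 * p + 2 * q + mu + 2 * ep := by linarith
  have h4 : 0 < p + q + ep := by linarith
  have h5 : 0 < p * q * mu := by positivity
  have h6 : 0 < p * (p + ep) * mu := by positivity
  have h7 : 0 < q * (q + ep) * mu := by positivity
  have h8 : 0 < p * q * (p + ep) := by positivity
  have h9 : 0 < p * q * (q + ep) := by positivity
  have g0 : 0 < 2 * p * q * (2 * p + 2 * q + mu + 2 * ep) := by positivity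
  have g2 : 0 < 2 * p * (p + ep) * (p + q + ep) := by positivity
  have g3 : 0 < 2 * q * (q + ep) * (p + q + ep) := by positivity
  have g4 : 0 < 2 * p * mu * (2 * p + 2 * q + mu + 2 * ep) := by positivity
  have g5 : 0 < 2 * q * mu * (2 * p + 2 * q + mu + 2 * ep) := by positivity
  fin_cases j
  · exact g0.ne'
  · exact g0.ne'
  · exact g2.ne'
  · exact g3.ne'
  · exact g4.ne'
  · exact g5.ne'
  · exact (neg_ne_zero.2 h5.ne')
  · exact (neg_ne_zero.2 h5.ne')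
  · exact (neg_ne_zero.2 h5.ne')
  · exact (neg_ne_zero.2 h5.ne')
  · exact (neg_ne_zero.2 h5.ne')
  · exact (neg_ne_zero.2 h5.ne')
  · exact div_ne_zero (neg_ne_zero.2 h6.ne') two_ne_zero
  · exact div_ne_zero (neg_ne_zero.2 h7.ne') two_ne_zero
  · exact (neg_ne_zero.2 h8.ne')
  · exact (neg_ne_zero.2 h8.ne')
  · exact (neg_ne_zero.2 h8.ne')
  · exact (neg_ne_zero.2 h9.ne')
  · exact (neg_ne_zero.2 h9.ne')
  · exact (neg_ne_zero.2 h9.ne')

section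

variable {F k : Type} [Field F] [LinearOrder F] [IsStrictOrderedRing F] [Field k] [Algebra F k]
  {p q mu ep lam : F} {v : Fin 6 → ℤ} {M : ℤ} {ξ : Fin 6 → k}

/-- The terms of the equations for the leading coefficients. -/
theorem terms (h : NC p q mu ep lam v M ξ) : ∃ T : Fin 20 → k,
    (∀ j, gr (mC j) v ≠ 0 → T j = 0) ∧ (∀ j, gr (mC j) v = 0 → T j ≠ 0) ∧
      ∀ e, ∑ j, (mC j e : k) * T j = 0 := by
  refine ⟨fun j ↦ if gr (mC j) v = 0 then algebraMap F k (cC p q mu ep j) * mon ξ (mC j) else 0,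
    fun j hj ↦ if_neg hj, fun j hj ↦ ?_, fun e ↦ h.nrm.ld0 e⟩
  simp only [if_pos hj]
  exact mul_ne_zero (am_ne (cC_ne h.par j)) (mon_ne h.nrm.ne _)

theorem eqs {T : Fin 20 → k} (h : ∀ e, ∑ j, (mC j e : k) * T j = 0) :
    (-T 0 + T 6 - T 7 - T 8 - T 14 + T 15 - T 16 - T 17 + T 18 - T 19 = 0 ∧
      -T 1 + T 9 - T 10 - T 11 - T 14 - T 15 + T 16 - T 17 - T 18 + T 19 = 0 ∧
      -T 2 + T 12 + T 14 - T 15 - T 16 = 0) ∧
      -T 3 + T 13 + T 17 - T 18 - T 19 = 0 ∧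
      -T 4 - T 6 + T 7 - T 8 - T 9 + T 10 - T 11 - 2 * T 12 = 0 ∧
      -T 5 - T 6 - T 7 + T 8 - T 9 - T 10 + T 11 - 2 * T 13 = 0 := by
  have h0 := h 0
  have h1 := h 1
  have h2 := h 2
  have h3 := h 3
  have h4 := h 4
  have h5 := h 5
  simp [Fin.sum_univ_succ, mC] at h0 h1 h2 h3 h4 h5
  refine ⟨⟨?_, ?_, ?_⟩, ?_, ?_, ?_⟩
  · linear_combination h0
  · linear_combination h1
  · linear_combination h2
  · linear_combination h3
  · linear_combination h4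
  · linear_combination h5

theorem grs : gr (mC 0) v = -v 0 ∧ gr (mC 1) v = -v 1 ∧ gr (mC 2) v = -v 2 ∧
    gr (mC 3) v = -v 3 ∧ gr (mC 4) v = -v 4 ∧ gr (mC 12) v = v 2 - 2 * v 4 ∧
    gr (mC 13) v = v 3 - 2 * v 5 := by
  refine ⟨?_, ?_, ?_, ?_, ?_, ?_, ?_⟩ <;> rw [gr6] <;> simp [mC] <;> ring

theorem grt : (gr (mC 6) v = v 0 - v 4 - v 5 ∧ gr (mC 7) v = -v 0 + v 4 - v 5 ∧
    gr (mC 8) v = -v 0 - v 4 + v 5) ∧ (gr (mC 9) v = v 1 - v 4 - v 5 ∧
    gr (mC 10) v = -v 1 + v 4 - v 5 ∧ gr (mC 11) v = -v 1 - v 4 + v 5) ∧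
    (gr (mC 14) v = -v 0 - v 1 + v 2 ∧ gr (mC 15) v = v 0 - v 1 - v 2 ∧
    gr (mC 16) v = -v 0 + v 1 - v 2) ∧ (gr (mC 17) v = -v 0 - v 1 + v 3 ∧
    gr (mC 18) v = v 0 - v 1 - v 3 ∧ gr (mC 19) v = -v 0 + v 1 - v 3) := by
  refine ⟨⟨?_, ?_, ?_⟩, ⟨?_, ?_, ?_⟩, ⟨?_, ?_, ?_⟩, ⟨?_, ?_, ?_⟩⟩ <;> rw [gr6] <;>
    simp [mC] <;> ring

/-- In a triangle with positive sides at most one degenerate relation holds. -/
theorem tri1 {a b c : ℤ} (ha : 0 < a) (hb : 0 < b) (hc : 0 < c) {x y z : k}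
    (hx : c ≠ a + b → x = 0) (hy : a ≠ b + c → y = 0) (hz : b ≠ a + c → z = 0)
    (e : x - y - z = 0) : x = 0 ∧ y = 0 ∧ z = 0 := by
  by_cases h1 : c = a + b
  · have y0 := hy (by omega)
    have z0 := hz (by omega)
    rw [y0, z0] at e
    exact ⟨by simpa using e, y0, z0⟩
  · have x0 := hx h1
    by_cases h2 : a = b + c
    · have z0 := hz (by omega)
      rw [x0, z0] at e
      exact ⟨x0, by simpa using e, z0⟩
    · have y0 := hy h2
      rw [x0, y0] at e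
      exact ⟨x0, y0, by simpa using e⟩

end

/-- The integer part of the case `v 3 = v 0 + v 1`. -/
theorem arith17 {a b c d e f : ℤ} (p0 : 0 < a) (p1 : 0 < b) (p2 : 0 < c) (p4 : 0 < e)
    (p5 : 0 < f) (h3 : d = 2 * f) (h2 : c < 2 * e) (a2 : a ≤ c + b) (a3 : b ≤ c + a)
    (h : d = a + b) (d0 : a = e + f ∨ e = a + f ∨ f = a + e)
    (d1 : b = e + f ∨ e = b + f ∨ f = b + e) : e = a + f ∧ e = b + f := by
  rcases d0 with d0 | d0 | d0 <;> rcases d1 with d1 | d1 | d1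
  all_goals first
    | exact ⟨d0, d1⟩
    | exact absurd h (by omega)

theorem arith18 {a b c d e f : ℤ} (p0 : 0 < a) (p1 : 0 < b) (p2 : 0 < c) (p4 : 0 < e)
    (p5 : 0 < f) (h3 : d = 2 * f) (h2 : c < 2 * e) (a2 : a ≤ c + b) (a3 : b ≤ c + a)
    (h : a = d + b) (d0 : a = e + f ∨ e = a + f ∨ f = a + e)
    (d1 : b = e + f ∨ e = b + f ∨ f = b + e) : a = d + b ∧ a = e + f ∧ e = b + f := by
  rcases d0 with d0 | d0 | d0 <;> rcases d1 with d1 | d1 | d1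
  all_goals first
    | exact ⟨h, d0, d1⟩
    | exact absurd h (by omega)

/-- **FN-C0A**. -/
theorem goalC0A : G_C0A := by
  intro F k _ _ _ _ _ p q mu ep lam v M ξ h hpos h35 h24
  obtain ⟨T, t0, t1, te⟩ := terms h
  obtain ⟨⟨e0, e1, e2⟩, e3, e4, -⟩ := eqs te
  haveI : CharZero k := charZero_of_injective_algebraMap (algebraMap F k).injective
  obtain ⟨-, -, -, -, -, ⟨-, a2, a3⟩, -⟩ := h.tri
  have p0 := hpos 0
  have p1 := hpos 1
  have p2 := hpos 2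
  have p3 := hpos 3
  have p4 := hpos 4
  have p5 := hpos 5
  obtain ⟨G0, G1, G2, G3, G4, G12, G13⟩ := grs (v := v)
  have z0 := t0 0 (by rw [G0]; omega)
  have z1 := t0 1 (by rw [G1]; omega)
  have z2 := t0 2 (by rw [G2]; omega)
  have z3 := t0 3 (by rw [G3]; omega)
  have z4 := t0 4 (by rw [G4]; omega)
  have z12 := t0 12 (by rw [G12]; omega)
  have r13 := t1 13 (by rw [G13]; omega)
  clear G0 G1 G2 G3 G4 G12 G13
  obtain ⟨⟨G6, G7, G8⟩, ⟨G9, G10, G11⟩, ⟨G14, G15, G16⟩, G17, G18, G19⟩ := grt (v := v)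
  have s6 : v 0 ≠ v 4 + v 5 → T 6 = 0 := fun hh ↦ t0 6 (by rw [G6]; omega)
  have s7 : v 4 ≠ v 0 + v 5 → T 7 = 0 := fun hh ↦ t0 7 (by rw [G7]; omega)
  have s8 : v 5 ≠ v 0 + v 4 → T 8 = 0 := fun hh ↦ t0 8 (by rw [G8]; omega)
  have s9 : v 1 ≠ v 4 + v 5 → T 9 = 0 := fun hh ↦ t0 9 (by rw [G9]; omega)
  have s10 : v 4 ≠ v 1 + v 5 → T 10 = 0 := fun hh ↦ t0 10 (by rw [G10]; omega)
  have s11 : v 5 ≠ v 1 + v 4 → T 11 = 0 := fun hh ↦ t0 11 (by rw [G11]; omega)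
  have s14 : v 2 ≠ v 0 + v 1 → T 14 = 0 := fun hh ↦ t0 14 (by rw [G14]; omega)
  have s15 : v 0 ≠ v 1 + v 2 → T 15 = 0 := fun hh ↦ t0 15 (by rw [G15]; omega)
  have s16 : v 1 ≠ v 0 + v 2 → T 16 = 0 := fun hh ↦ t0 16 (by rw [G16]; omega)
  have s17 : v 3 ≠ v 0 + v 1 → T 17 = 0 := fun hh ↦ t0 17 (by rw [G17]; omega)
  have s18 : v 0 ≠ v 3 + v 1 → T 18 = 0 := fun hh ↦ t0 18 (by rw [G18]; omega)
  have s19 : v 1 ≠ v 3 + v 0 → T 19 = 0 := fun hh ↦ t0 19 (by rw [G19]; omega)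
  have r17 : v 3 = v 0 + v 1 → T 17 ≠ 0 := fun hh ↦ t1 17 (by rw [G17]; omega)
  have r18 : v 0 = v 3 + v 1 → T 18 ≠ 0 := fun hh ↦ t1 18 (by rw [G18]; omega)
  have r19 : v 1 = v 3 + v 0 → T 19 ≠ 0 := fun hh ↦ t1 19 (by rw [G19]; omega)
  clear G6 G7 G8 G9 G10 G11 G14 G15 G16 G17 G18 G19 t0 t1 te
  obtain ⟨z14, z15, z16⟩ := tri1 p0 p1 p2 s14 s15 s16
    (by linear_combination e2 + z2 - z12)
  rw [z3] at e3
  rw [z0, z14, z15, z16] at e0
  rw [z1, z14, z15, z16] at e1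
  rw [z4, z12] at e4
  have d0 : -T 17 + T 18 - T 19 ≠ 0 → v 0 = v 4 + v 5 ∨ v 4 = v 0 + v 5 ∨ v 5 = v 0 + v 4 := by
    intro hd
    by_contra hc
    push Not at hc
    rw [s6 hc.1, s7 hc.2.1, s8 hc.2.2] at e0
    exact hd (by linear_combination e0)
  have d1 : -T 17 - T 18 + T 19 ≠ 0 → v 1 = v 4 + v 5 ∨ v 4 = v 1 + v 5 ∨ v 5 = v 1 + v 4 := by
    intro hd
    by_contra hc
    push Not at hc
    rw [s9 hc.1, s10 hc.2.1, s11 hc.2.2] at e1
    exact hd (by linear_combination e1)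
  by_cases c17 : v 3 = v 0 + v 1
  · have y18 := s18 (by clear d0 d1; omega)
    have y19 := s19 (by clear d0 d1; omega)
    have r := r17 c17
    have d0' := d0 (by rw [y18, y19]; simpa using r)
    have d1' := d1 (by rw [y18, y19]; simpa using r)
    obtain ⟨k1, k2⟩ := arith17 p0 p1 p2 p4 p5 h35 h24 a2 a3 c17 d0' d1'
    clear d0 d1 d0' d1'
    have y6 := s6 (by omega)
    have y8 := s8 (by omega)
    have y9 := s9 (by omega)
    have y11 := s11 (by omega)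
    rw [y18, y19] at e0 e1 e3
    rw [y6, y8] at e0 e4
    rw [y9, y11] at e1 e4
    have : (2 : k) * T 13 = 0 := by linear_combination 2 * e3 + e0 + e1 + e4
    exact (r13 (by simpa using this)).elim
  by_cases c18 : v 0 = v 3 + v 1
  · have y17 := s17 c17
    have y19 := s19 (by clear d0 d1; omega)
    have r := r18 c18
    have d0' := d0 (by rw [y17, y19]; simpa using r)
    have d1' := d1 (by rw [y17, y19]; simpa using r)
    exact Or.inl (arith18 p0 p1 p2 p4 p5 h35 h24 a2 a3 c18 d0' d1')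
  by_cases c19 : v 1 = v 3 + v 0
  · have y17 := s17 c17
    have y18 := s18 c18
    have r := r19 c19
    have d0' := d0 (by rw [y17, y18]; simpa using r)
    have d1' := d1 (by rw [y17, y18]; simpa using r)
    exact Or.inr (arith18 p1 p0 p2 p4 p5 h35 h24 a3 a2 c19 d1' d0')
  · rw [s17 c17, s18 c18, s19 c19] at e3
    exact (r13 (by simpa using e3)).elim

end Pool.Agent.Helper46.FN
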